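import Pool.Agent.Helper94.GA.Goals

/-!
# Packet MET of the growth gap project (MP_d69e80_al): the metabelian case
-/

namespace Pool.Agent.Helper83.GA

open Finset Pointwise Pool.Agent.Helper94.GA Pool.Agent.Helper11.Gap

universe u v w

section

variable {G : Type u} [Group G] {K : Type v} [Field K] {χ β : G → K}

theorem beta_one (h1 : χ 1 = 1) (hβ : ∀ a b, β (a * b) = β a + χ a * β b) : β 1 = 0 := by
  have := hβ 1 1
  rw [mul_one, h1, one_mul] at this
  simpa using this

theorem chi_inv (h1 : χ 1 = 1) (hχ : ∀ a b, χ (a * b) = χ a * χ b) (a : G) :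
    χ a⁻¹ * χ a = 1 := by
  rw [← hχ, inv_mul_cancel, h1]

/-- The subgroup of the elements with torsion linear part. -/
def torSub (h1 : χ 1 = 1) (hχ : ∀ a b, χ (a * b) = χ a * χ b) : Subgroup G where
  carrier := {g | ∃ k : ℕ, 0 < k ∧ χ g ^ k = 1}
  one_mem' := ⟨1, one_pos, by rw [h1, one_pow]⟩
  mul_mem' := by
    rintro a b ⟨k, hk, hak⟩ ⟨l, hl, hbl⟩
    refine ⟨k * l, Nat.mul_pos hk hl, ?_⟩
    rw [hχ, mul_pow, pow_mul, hak, one_pow, one_mul, mul_comm k l, pow_mul, hbl, one_pow]
  inv_mem' := by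
    rintro a ⟨k, hk, hak⟩
    refine ⟨k, hk, ?_⟩
    have h := chi_inv h1 hχ a
    have h2 : (χ a⁻¹ * χ a) ^ k = 1 := by rw [h, one_pow]
    rwa [mul_pow, hak, mul_one] at h2

/-- The stabilizer of a point. -/
def stabSub (h1 : χ 1 = 1) (hχ : ∀ a b, χ (a * b) = χ a * χ b)
    (hβ : ∀ a b, β (a * b) = β a + χ a * β b) (o : K) : Subgroup G where
  carrier := {g | χ g * o + β g = o}
  one_mem' := by
    change χ 1 * o + β 1 = o
    rw [h1, beta_one h1 hβ, one_mul, add_zero]
  mul_mem' := by
    intro a b ha hb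
    change χ a * o + β a = o at ha
    change χ b * o + β b = o at hb
    change χ (a * b) * o + β (a * b) = o
    rw [hχ, hβ]
    calc χ a * χ b * o + (β a + χ a * β b) = χ a * (χ b * o + β b) + β a := by ring
      _ = o := by rw [hb, ha]
  inv_mem' := by
    intro a ha
    change χ a * o + β a = o at ha
    change χ a⁻¹ * o + β a⁻¹ = o
    have h := chi_inv h1 hχ a
    have h2 : β a⁻¹ + χ a⁻¹ * β a = 0 := by
      rw [← hβ, inv_mul_cancel, beta_one h1 hβ]
    have h3 : β a⁻¹ = - (χ a⁻¹ * β a) := by linear_combination h2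
    rw [h3]
    calc χ a⁻¹ * o + -(χ a⁻¹ * β a) = χ a⁻¹ * (χ a * o + β a) - χ a⁻¹ * β a := by rw [ha]; ring
      _ = (χ a⁻¹ * χ a) * o := by ring
      _ = o := by rw [h, one_mul]

/-- The digits. -/
def dig (s t : G) (b : Bool) : G := if b then t * s * t⁻¹ else s

theorem act_dig (h1 : χ 1 = 1) (hχ : ∀ a b, χ (a * b) = χ a * χ b)
    (hβ : ∀ a b, β (a * b) = β a + χ a * β b) {o : K} {s t : G}
    (hs : χ s * o + β s = o) (b : Bool) (z : K) :
    χ (dig s t b) * z + β (dig s t b) =
      o + ((if b then (1 - χ s) * (χ t * o + β t - o) else 0) + χ s * (z - o)) := by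
  cases b with
  | false =>
    have hd : dig s t false = s := rfl
    rw [hd]
    simp only [Bool.false_eq_true, if_false]
    linear_combination hs
  | true =>
    have hd : dig s t true = t * s * t⁻¹ := rfl
    rw [hd]
    simp only [if_true]
    have h := chi_inv h1 hχ t
    have h2 : β t⁻¹ + χ t⁻¹ * β t = 0 := by
      rw [← hβ, inv_mul_cancel, beta_one h1 hβ]
    have h3 : β t⁻¹ = - (χ t⁻¹ * β t) := by linear_combination h2
    rw [hβ, hβ, hχ, hχ, h3]
    have h4 : β s = o - χ s * o := by linear_combination hs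
    rw [h4]
    linear_combination (χ s * z - χ s * β t) * h

theorem act_prod (h1 : χ 1 = 1) (hχ : ∀ a b, χ (a * b) = χ a * χ b)
    (hβ : ∀ a b, β (a * b) = β a + χ a * β b) {o : K} {s t : G}
    (hs : χ s * o + β s = o) (n : ℕ) (δ : Fin n → Bool) :
    χ (List.ofFn (fun k => dig s t (δ k))).prod * o +
        β (List.ofFn (fun k => dig s t (δ k))).prod =
      o + ∑ k, if δ k then (χ s) ^ (k : ℕ) * ((1 - χ s) * (χ t * o + β t - o)) else 0 := by
  induction n with
  | zero =>
    simp [h1, beta_one h1 hβ]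
  | succ n ih =>
    rw [List.ofFn_succ, List.prod_cons, hχ, hβ, Fin.sum_univ_succ]
    have e1 : χ (dig s t (δ 0)) * χ (List.ofFn (fun k : Fin n => dig s t (δ k.succ))).prod * o +
        (β (dig s t (δ 0)) + χ (dig s t (δ 0)) *
          β (List.ofFn (fun k : Fin n => dig s t (δ k.succ))).prod) =
        χ (dig s t (δ 0)) * (χ (List.ofFn (fun k : Fin n => dig s t (δ k.succ))).prod * o +
          β (List.ofFn (fun k : Fin n => dig s t (δ k.succ))).prod) + β (dig s t (δ 0)) := by
      ring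
    rw [e1, ih (fun k => δ k.succ), act_dig h1 hχ hβ hs]
    congr 1
    congr 1
    · simp
    · rw [add_sub_cancel_left, Finset.mul_sum]
      refine Finset.sum_congr rfl fun k _ => ?_
      rw [mul_ite, mul_zero]
      simp only [Fin.val_succ, pow_succ]
      congr 1
      ring

end

theorem MET (hent : ENT_stmt.{0, u, v}) (htw : TW_stmt.{v}) : MET_stmt.{u, v} := by
  intro G _ _ K _ _ halg T hT hgen χ β h1 hχ hβ hnt hmove hint
  -- a letter with non torsion linear part
  obtain ⟨s, hsT, hs⟩ : ∃ s ∈ T, ∀ k : ℕ, 0 < k → χ s ^ k ≠ 1 := by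
    by_contra hcon
    push Not at hcon
    obtain ⟨n, hn⟩ := hnt
    have hle : Subgroup.closure (T : Set G) ≤ torSub h1 hχ := by
      rw [Subgroup.closure_le]
      intro s hs
      obtain ⟨k, hk, hk'⟩ := hcon s hs
      exact ⟨k, hk, hk'⟩
    rw [hgen] at hle
    obtain ⟨k, hk, hk'⟩ := hle (Subgroup.mem_top n)
    exact hn k hk hk'
  have hs1 : (1 : K) - χ s ≠ 0 := by
    intro h
    refine hs 1 one_pos ?_
    rw [pow_one]
    exact (sub_eq_zero.1 h).symm
  set o : K := β s / (1 - χ s) with ho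
  have hso : χ s * o + β s = o := by
    rw [ho]
    field_simp
    ring
  obtain ⟨t, htT, ht⟩ : ∃ t ∈ T, χ t * o + β t ≠ o := by
    by_contra hcon
    push Not at hcon
    obtain ⟨n, hn⟩ := hmove o
    have hle : Subgroup.closure (T : Set G) ≤ stabSub h1 hχ hβ o := by
      rw [Subgroup.closure_le]
      intro s hs
      exact hcon s hs
    rw [hgen] at hle
    exact hn (hle (Subgroup.mem_top n))
  set x : K := (1 - χ s) * (χ t * o + β t - o) with hx
  have hx0 : x ≠ 0 := mul_ne_zero hs1 (sub_ne_zero.2 ht)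
  obtain ⟨B, hB⟩ := htw K halg Unit (χ s) (hint s) (fun _ => x) (fun _ => hx0)
  refine ⟨s, hs, B, fun n => (hB n).trans ?_⟩
  have havg : avgEnt (χ s) (fun _ : Unit => x) n =
      ent (fun δ : Fin n → Bool => ∑ k, if δ k then (χ s) ^ (k : ℕ) * x else 0) := by
    unfold avgEnt
    simp
  rw [havg]
  have hmem : ∀ b : Bool, dig s t b ∈ T ^ 3 := by
    intro b
    cases b with
    | false =>
      change s ∈ T ^ 3
      exact hT.mono (by norm_num : 1 ≤ 3) (by rw [pow_one]; exact hsT)
    | true =>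
      change t * s * t⁻¹ ∈ T ^ 3
      have a1 : t ∈ T ^ 1 := by rw [pow_one]; exact htT
      have a2 : s ∈ T ^ 1 := by rw [pow_one]; exact hsT
      have a3 : t⁻¹ ∈ T ^ 1 := by rw [pow_one]; exact hT.inv t htT
      exact mul_mem_pow (mul_mem_pow a1 a2) a3
  have hF : ∀ δ : Fin n → Bool, (List.ofFn (fun k => dig s t (δ k))).prod ∈ T ^ (3 * n) := by
    intro δ
    have := list_prod_mem_pow (T := T) (fun b : Bool => dig s t b) 3 (List.ofFn δ)
      (fun a _ => hmem a)
    rw [List.length_ofFn, List.map_ofFn] at this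
    exact this
  have hstep1 : ent (fun δ : Fin n → Bool => ∑ k, if δ k then (χ s) ^ (k : ℕ) * x else 0) ≤
      ent (fun δ : Fin n → Bool => (List.ofFn (fun k => dig s t (δ k))).prod) := by
    refine hent.2.2 (Fin n → Bool) G K _ _ ?_
    intro δ δ' hδ
    have e1 := act_prod h1 hχ hβ (t := t) hso n δ
    have e2 := act_prod h1 hχ hβ (t := t) hso n δ'
    have e3 : (List.ofFn (fun k => dig s t (δ k))).prod =
      (List.ofFn (fun k => dig s t (δ' k))).prod := hδ
    rw [e3, e2] at e1
    exact (add_left_cancel e1).symm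
  have hstep2 := hent.2.1 (Fin n → Bool) G
    (fun δ : Fin n → Bool => (List.ofFn (fun k => dig s t (δ k))).prod)
  refine hstep1.trans (hstep2.trans ?_)
  have hcard : ((univ.image (fun δ : Fin n → Bool =>
      (List.ofFn (fun k => dig s t (δ k))).prod)).card : ℝ) ≤ ((T ^ (3 * n)).card : ℝ) := by
    exact_mod_cast Finset.card_le_card (by
      intro g hg
      obtain ⟨δ, _, rfl⟩ := Finset.mem_image.1 hg
      exact hF δ)
  refine Real.log_le_log ?_ hcard
  have : 0 < (univ.image (fun δ : Fin n → Bool =>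
      (List.ofFn (fun k => dig s t (δ k))).prod)).card :=
    Finset.card_pos.2 ⟨_, Finset.mem_image_of_mem _ (Finset.mem_univ (fun _ => false))⟩
  exact_mod_cast this

end Pool.Agent.Helper83.GA
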